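import Pool.Agent.Lib.MP_bc213e_ag.SB.Defs
import Pool.Agent.Lib.MP_bc213e_ag.VK.Defs

/-! Passing to a multiple of `L`. -/

namespace Pool.Agent.Lib.MP_bc213e_ag.SB

open Pool.Agent.Lib.MP_bc213e_ag.Hyp Pool.Agent.Lib.MP_bc213e_ag.KBB WithZero

variable {K M ι : Type} [Field K] [Algebra ℂ K] {x g : ι → Kˣ}

omit [Algebra ℂ K] in
theorem pow_zpow (u : Kˣ) (N : ℕ) (t : ℤ) : ((u ^ N : Kˣ) : K) ^ t = (u : K) ^ (N * t) := by
  rw [Units.val_pow_eq_pow_val, zpow_mul, zpow_natCast]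

theorem sec_pow_int (N : ℕ) (t : ℤ) (a : ℕ) (s : K) :
    Sec x (fun j => g j ^ N) t a s ↔ Sec x g (N * t) a s := by
  simp only [Sec, pow_zpow]

theorem sec_pow_iff (N t a : ℕ) (s : K) :
    Sec x (fun j => g j ^ N) t a s ↔ Sec x g ((N * t : ℕ) : ℤ) a s := by
  rw [sec_pow_int, Nat.cast_mul]

theorem secS_pow (N t a : ℕ) : SecS x (fun j => g j ^ N) t a = SecS x g ((N * t : ℕ) : ℤ) a :=
  Submodule.ext fun s => sec_pow_iff N t a s

theorem cart_pow (hc : Cart x g) (N : ℕ) : Cart x fun j => g j ^ N := fun i j => by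
  obtain ⟨e, he⟩ := hc i j
  refine ⟨e * N, ?_⟩
  simpa only [Units.val_pow_eq_pow_val, mul_pow, div_pow, pow_mul] using pow_mem he N

theorem nef_pow (hn : Nef x g) (N : ℕ) : Nef x fun j => g j ^ N := fun t => by
  obtain ⟨N', h0, h⟩ := hn (N * t)
  refine ⟨N', h0, fun i => ?_⟩
  have e : (N : ℤ) * (N' * t) = N' * ((N * t : ℕ) : ℤ) := by
    push_cast
    ring
  simpa only [sec_pow_int, pow_zpow, e] using h i

theorem exists_pow [Field M] [Algebra ℂ M] [Algebra K M] {n : ℕ} (S : DD.Su K M ι n) {N : ℕ}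
    (hN : 0 < N) : ∃ S' : DD.Su K M ι n, S'.x = S.x ∧ (S'.g = fun j => S.g j ^ N) ∧
      S'.d₀ = S.d₀ ∧ ∀ d, S.VK d → S'.VK d := by
  refine ⟨{ S with
    g := fun j => S.g j ^ N
    m := S.m * N
    mpos := mul_ne_zero S.mpos hN.ne'
    eff := fun i u hu => ?_
    klt := fun i p hp hd => ?_
    cart := cart_pow S.cart N
    nef := nef_pow S.nef N }, rfl, rfl, rfl, fun d h i p hp hd A w h1 h2 h3 h4 => ?_⟩
  · simpa only [Units.val_pow_eq_pow_val, div_pow, pow_mul] using pow_mem (S.eff i u hu) N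
  · obtain ⟨ζ, d, s, r, r', h1, h2, h3, h4, h5, h6⟩ := S.klt i p hp hd
    refine ⟨ζ, fun l => d l * N, s, r ^ N, r' ^ N, h1, fun h => h2 (hp.mem_of_pow_mem _ h),
      fun h => h3 (hp.mem_of_pow_mem _ h), fun l => Nat.mul_lt_mul_of_pos_right (h4 l) hN, h5, ?_⟩
    simpa only [mul_pow, pow_mul, Finset.prod_pow, Units.val_pow_eq_pow_val, Subalgebra.coe_pow]
      using congrArg (· ^ N) h6
  · obtain ⟨u, a, k1, k2, k3⟩ := h i p hp hd A w h1 h2 h3 h4
    refine ⟨u, a, k1, k2, ?_⟩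
    have e := pow_le_pow_left' k3 N
    rw [← map_pow, div_pow, mul_pow, ← pow_mul, ← pow_mul, ← Units.val_pow_eq_pow_val] at e
    refine e.trans ?_
    rw [← exp_nsmul, exp_le_exp]
    simpa using Nat.one_le_iff_ne_zero.2 hN.ne'

end Pool.Agent.Lib.MP_bc213e_ag.SB
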