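import Pool.Agent.Lib.MP_bc213e_ag.SB.Z.Main
import Pool.Agent.Lib.MP_bc213e_ag.SB.R.Div
import Pool.Agent.Lib.MP_bc213e_ag.OW.G.Val
import Pool.Agent.Lib.MP_bc213e_ag.DS.Gm

/-! The lattices of sections over the prime divisors of the base. -/

namespace Pool.Agent.Lib.MP_bc213e_ag.SB

open Pool.Agent.Lib.MP_bc213e_ag.Hyp Pool.Agent.Lib.MP_bc213e_ag.KBB Pool.Agent.Lib.MP_bc213e_ag.OW
  WithZero Module

theorem prm_nonempty {F κ : Type} [Field F] [Algebra ℂ F] [Fintype κ] {y : κ → Fˣ} (b : κ)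
    [IsFractionRing (chart y b) F] [IsIntegrallyClosed (chart y b)]
    (dim : Algebra.trdeg ℂ F ≠ 0) : Nonempty (Prm y) := by
  by_contra h
  have := chart_noeth y b
  have e : chart y b = ⊤ := eq_top_iff.2 fun z _ => hartogs fun w hw => (h ⟨⟨w, b, hw⟩⟩).elim
  have : Algebra.FiniteType ℂ F :=
    ⟨e ▸ Subalgebra.fg_def.2 ⟨_, Set.finite_range _, rfl⟩⟩
  have := finite_of_finite_type_of_isJacobsonRing ℂ F
  exact dim trdeg_eq_zero

theorem exists_pole {F κ : Type} [Field F] [Algebra ℂ F] [Fintype κ] {y : κ → Fˣ}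
    (frac : ∀ b, IsFractionRing (chart y b) F) (T : Finset F) :
    ∃ M : Prm y →₀ ℤ, 0 ≤ M ∧ ∀ z ∈ T, ∀ w, w.1 z ≤ exp (M w) := by
  classical
  induction T using Finset.induction with
  | empty => exact ⟨0, le_rfl, by simp⟩
  | insert z T _ ih =>
    obtain ⟨M, h0, h⟩ := ih
    rcases eq_or_ne z 0 with rfl | hz
    · exact ⟨M, h0, by simpa using h⟩
    obtain ⟨N, hN⟩ := exists_pdiv frac hz
    refine ⟨M ⊔ N, le_sup_of_le_left h0, fun z' hz' w => ?_⟩
    rcases Finset.mem_insert.1 hz' with rfl | e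
    · exact hN w ▸ exp_le_exp.2 (le_sup_right (a := M) w)
    · exact (h z' e w).trans (exp_le_exp.2 (le_sup_left (b := N) w))

variable {K ι : Type} [Field K] [Algebra ℂ K] {x g : ι → Kˣ} {i₀ : ι}
  {k : IntermediateField ℂ K} {θ : K} {N : ℕ}

/-- The sections of `a H` over `O`. -/
def regS (x : ι → Kˣ) (O : ValuationSubring k) (a : ℕ) : AddSubgroup K where
  carrier := {F | Reg x O a F}
  add_mem' := fun ha hb j V h1 h2 => by
    rw [add_div]
    exact add_mem (ha j V h1 h2) (hb j V h1 h2)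
  zero_mem' := fun j V _ _ => by
    rw [zero_div]
    exact zero_mem _
  neg_mem' := fun ha j V h1 h2 => by
    rw [neg_div]
    exact neg_mem (ha j V h1 h2)

theorem Reg.smul {O : ValuationSubring k} {a : ℕ} {F : K} (h : Reg x O a F) {c : k} (hc : c ∈ O) :
    Reg x O a (c • F) := fun j V h1 h2 => by
  rw [smul_div_assoc]
  exact mul_mem (h1 c hc) (h j V h1 h2)

theorem Reg.of_sec {a : ℕ} {F : K} (h : Sec x g 0 a F) (O : ValuationSubring k) : Reg x O a F :=
  fun j V _ h2 => h2 _ (by simpa using h j)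

omit [Algebra ℂ K] in
theorem mem_of_eq {V : ValuationSubring K} {a b : K} (h : V.valuation a = V.valuation b) :
    a / b ∈ V := by
  rw [← V.valuation_le_one_iff, map_div₀, h]
  exact div_self_le_one _

namespace Desc

variable (Δ : Desc x g k θ N)

theorem exists_chart {j : ι} (V : ValuationSubring K) (h : ∀ r ∈ chart x j, r ∈ V) :
    ∃ b, ∀ r ∈ chart Δ.y b, (r : K) ∈ V :=
  exists_chart_le Δ.y (V.comap (algebraMap k K)) fun c => h _ ((chart x j).algebraMap_mem c)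

include Δ in
theorem ne_zero (j : ι) : θ ≠ 0 := fun e => by
  have h := Δ.cmp 0 j ⊤ (fun _ _ => trivial) fun _ _ => trivial
  rw [mul_eq_zero_of_right _ e, map_zero] at h
  exact (g j).ne_zero ((map_eq_zero _).1 h.symm)

/-- Pull-back of sections. -/
theorem pull (frac : ∀ i, IsFractionRing (chart x i) K) (norm : ∀ i, IsIntegrallyClosed (chart x i))
    {a t s : ℕ} {w : K} (hw : ∀ b, Sec x g 0 a (w * (Δ.y b : k))) {f : k}
    (hf : Sec Δ.y Δ.h t s f) : Sec x g t (s * a) (w ^ s * f * θ ^ t) := fun j => by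
  have := frac j
  have := norm j
  refine mem_of_val _ fun V hV => ?_
  obtain ⟨b, hb⟩ := Δ.exists_chart V hV
  have h1 := mul_mem (mul_mem (hb _ (hf b)) (pow_mem (mem_of_eq (Δ.cmp b j V hb hV)) t))
    (pow_mem (hV _ (hw b j)) s)
  have h2 : (((Δ.h b : k) : K)) ≠ 0 := (map_ne_zero (algebraMap k K)).2 (Δ.h b).ne_zero
  have h3 : (((Δ.y b : k) : K)) ≠ 0 := (map_ne_zero (algebraMap k K)).2 (Δ.y b).ne_zero
  refine (congrArg (· ∈ V) ?_).mp h1
  simp only [zpow_natCast, zpow_zero, one_mul, div_pow, mul_pow, pow_mul']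
  push_cast
  field_simp

variable [Fintype ι]

theorem exists_den (hc : Cart x g) (one : x i₀ = 1) (frac : IsFractionRing (chart x i₀) K) :
    ∃ (a : ℕ) (w : K), w ≠ 0 ∧ ∀ b, Sec x g 0 a (w * (Δ.y b : k)) := by
  choose c t h0 _ h1 h2 using fun b => DS.clear hc one frac ((Δ.y b : k) : K) 0
  have h3 : ∀ s : Finset (Fin (N + 1)), Sec x g 0 (∑ b ∈ s, c b) (∏ b ∈ s, t b) := fun s => by
    induction s using Finset.induction with
    | empty => exact KBD.sec_one x g
    | insert b s hb ih =>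
      rw [Finset.sum_insert hb, Finset.prod_insert hb]
      exact KBD.sec_mul (h1 b) ih
  refine ⟨∑ b, c b, ∏ b, t b, Finset.prod_ne_zero_iff.2 fun b _ => h0 b, fun b => ?_⟩
  rw [← Finset.add_sum_erase _ _ (Finset.mem_univ b), ← Finset.mul_prod_erase _ _ (Finset.mem_univ b),
    mul_right_comm]
  exact KBD.sec_mul (h2 b) (h3 _)

theorem exists_lat (one : x i₀ = 1) (frac : ∀ i, IsFractionRing (chart x i) K)
    (norm : ∀ i, IsIntegrallyClosed (chart x i)) (dim : Algebra.trdeg ℂ k ≠ 0)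
    (C : VC k (Prm Δ.y)) (hv : ∀ w, C.v w = w.1)
    (hD : ∀ b (w : Prm Δ.y), PrimeDiv (chart Δ.y b) w.1 → w.1 (Δ.h b) = exp (C.D w)) :
    ∃ A : Lat C K, (∀ a t : ℕ, A.Γ a (t • C.D) = ST x g θ t a) ∧
      ∀ a w F, F ∈ A.Λ a w ↔ Reg x w.1.valuationSubring a F := by
  have h2 : ∀ b, (((Δ.h b : k) : K)) ≠ 0 := fun b =>
    (map_ne_zero (algebraMap k K)).2 (Δ.h b).ne_zero
  refine ⟨⟨fun a w => regS x w.1.valuationSubring a, fun a w c hc f hf => Reg.smul hf (hv w ▸ hc :),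
    fun a a' w f hf f' hf' j V h1 h2 => ?_, fun a w => Reg.of_sec (g := g) ?_ _, fun a φ => ?_⟩,
    fun a t => Submodule.ext fun f => ⟨fun hf j => ?_, fun hf w c hc j V h3 h4 => ?_⟩,
    fun _ _ _ => Iff.rfl⟩
  · rw [pow_add, ← div_mul_div_comm]
    exact mul_mem (hf j V h1 h2) (hf' j V h1 h2)
  · simpa [one] using KBD.sec_x x g i₀ a
  · obtain ⟨T, n, h⟩ := reg_bd one frac a φ
    obtain ⟨M, h0, hM⟩ := exists_pole Δ.frac T
    refine ⟨n • M, fun w f hf => ?_⟩
    obtain ⟨π, hπ⟩ := C.onto w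
    obtain ⟨m, hm⟩ := Int.eq_ofNat_of_zero_le (h0 w)
    have h1 : w.1 (π ^ m) = exp (-M w) := by
      rw [map_pow, ← hv, hπ, ← exp_nsmul, hm]
      simp
    have h3 : w.1 ((π ^ m) ^ n * φ f) ≤ 1 := h w.1.valuationSubring (π ^ m)
      ⟨fun c => r_triv w c, by simp⟩ (h1.trans_le (exp_le_exp.2 (neg_nonpos.2 (h0 w))) :)
      (fun z hz => by
        change w.1 _ ≤ 1
        rw [map_mul, h1]
        refine (mul_le_mul_right (hM z hz w) _).trans_eq ?_
        rw [← exp_add, neg_add_cancel, exp_zero]) f hf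
    rw [map_mul, map_pow, h1, ← exp_nsmul, smul_neg, exp_neg, inv_mul_le_iff₀ exp_pos,
      mul_one] at h3
    exact hv w ▸ h3
  · have := frac j
    have := norm j
    have := Δ.frac 0
    have := Δ.norm 0
    obtain ⟨w₀⟩ := prm_nonempty (y := Δ.y) 0 dim
    have h3 : ∀ b (w : Prm Δ.y), PrimeDiv (chart Δ.y b) w.1 →
        Reg x w.1.valuationSubring a (((Δ.h b : k) ^ t)⁻¹ • f) := fun b w hw => hf w _ (by
      rw [hv, map_inv₀, map_pow, hD b w hw, ← exp_nsmul, ← exp_neg]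
      rfl)
    obtain ⟨b₀, hb₀⟩ := w₀.2
    refine mem_of_val _ fun V hV => ?_
    obtain ⟨b, hb⟩ := Δ.exists_chart V hV
    have h4 := Δ.hart b a (((Δ.h b : k) ^ t)⁻¹ • f) (fun j V h5 h6 => by
      have h7 := mul_mem (h5 ((Δ.h b₀ : k) ^ t / (Δ.h b : k) ^ t) trivial)
        (h3 b₀ w₀ hb₀ j V (fun c _ => h5 c trivial) h6)
      refine (congrArg (· ∈ V) ?_).mp h7
      have := h2 b₀
      simp only [IntermediateField.smul_def, smul_eq_mul]
      push_cast
      field_simp) (fun w hw => h3 b ⟨w, b, hw⟩ hw) j V hb hV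
    refine (congrArg (· ∈ V) ?_).mp (mul_mem h4 (pow_mem (mem_of_eq (Δ.cmp b j V hb hV)) t))
    have := h2 b
    simp only [IntermediateField.smul_def, smul_eq_mul, zpow_natCast, div_pow, mul_pow,
      LinearMap.mulRight_apply]
    push_cast
    field_simp
  · obtain ⟨b, hb⟩ := w.2
    have h5 : c * (Δ.h b : k) ^ t ∈ w.1.valuationSubring := by
      change w.1 _ ≤ 1
      rw [map_mul, map_pow, hD b w hb, ← exp_nsmul]
      refine (mul_le_mul_left (hv w ▸ hc) _).trans_eq ?_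
      rw [← exp_add, Finsupp.smul_apply, neg_add_cancel, exp_zero]
    have h6 := mul_mem (mul_mem (h3 _ h5) (h4 _ (hf j))) (pow_mem (mem_of_eq
      (Δ.cmp b j V (fun r hr => h3 r (hb.2.1 r hr)) h4).symm) t)
    refine (congrArg (· ∈ V) ?_).mp h6
    have := h2 b
    have := Δ.ne_zero j
    simp only [IntermediateField.smul_def, smul_eq_mul, zpow_natCast, div_pow, mul_pow,
      LinearMap.mulRight_apply]
    push_cast
    field_simp

end Desc

end Pool.Agent.Lib.MP_bc213e_ag.SB
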