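import Pool.Agent.Lib.MP_bc213e_ag.SB.E.Pow
import Pool.Agent.Lib.MP_bc213e_ag.SB.E.Lat
import Pool.Agent.Lib.MP_bc213e_ag.SB.L.Main
import Pool.Agent.Lib.MP_bc213e_ag.SB.U.Main
import Pool.Agent.Lib.MP_bc213e_ag.SB.R.Main
import Pool.Agent.Lib.MP_bc213e_ag.SB.C.Main

/-! Nonvanishing in numerical dimension one. -/

namespace Pool.Agent.Lib.MP_bc213e_ag.SB

open Pool.Agent.Lib.MP_bc213e_ag.Hyp Pool.Agent.Lib.MP_bc213e_ag.KBB Filter Module Polynomial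
  WithZero

theorem evalEval_lin {P : ℚ[X][X]} (deg : P.natDegree ≤ 1) (a t : ℚ) :
    P.evalEval a t = t * (P.coeff 1).eval a + (P.coeff 0).eval a := by
  conv_lhs => rw [eq_X_add_C_of_natDegree_le_one deg]
  simp only [evalEval, eval_add, eval_mul, eval_C, eval_X, mul_comm]

theorem exists_closed {K : Type} [Field K] [Algebra ℂ K] (k₀ : IntermediateField ℂ K) :
    ∃ k : IntermediateField ℂ K, k₀ ≤ k ∧ Algebra.trdeg ℂ k = Algebra.trdeg ℂ k₀ ∧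
      ∀ e : K, IsAlgebraic k e → e ∈ k := by
  refine ⟨(algebraicClosure k₀ K).restrictScalars ℂ,
    fun c hc => (algebraicClosure k₀ K).algebraMap_mem ⟨c, hc⟩, ?_, fun e he => ?_⟩
  · change Algebra.trdeg ℂ (algebraicClosure k₀ K) = _
    have : FaithfulSMul k₀ (algebraicClosure k₀ K) :=
      (faithfulSMul_iff_algebraMap_injective _ _).2 (algebraMap k₀ (algebraicClosure k₀ K)).injective
    rw [← trdeg_add_eq ℂ k₀ (A := algebraicClosure k₀ K), trdeg_eq_zero (R := k₀), add_zero]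
  · exact mem_algebraicClosure_iff.2
      ((show IsAlgebraic (algebraicClosure k₀ K) e from he).restrictScalars k₀)

theorem slope_pos {q c r e p : ℚ} (hq : 0 < q) (hr : 0 ≤ r)
    (h : ∀ t : ℕ, t * q - c ≤ r * (t * e + p)) : 0 < e := by
  by_contra he
  obtain ⟨t, ht⟩ := exists_nat_gt ((r * p + c) / q)
  rw [div_lt_iff₀ hq] at ht
  nlinarith [h t, mul_nonneg hr (mul_nonneg (Nat.cast_nonneg (α := ℚ) t) (neg_nonneg.2 (not_lt.1 he)))]

variable {K M ι : Type} [Field K] [Algebra ℂ K] [Field M] [Algebra ℂ M] [Algebra K M]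
  [IsScalarTower ℂ K M] [Fintype ι] {n : ℕ} (S : DD.Su K M ι n) {P : ℚ[X][X]}

theorem core_desc (hd : S.d₀ = n - 1) (hk : S.VK 1) (deg : P.natDegree ≤ 1)
    (lead : P.coeff 1 ≠ 0)
    (hilbert : ∀ t : ℕ, ∀ᶠ a : ℕ in atTop,
      (finrank ℂ (SecS S.x S.g t a) : ℚ) = P.evalEval (a : ℚ) (t : ℚ)) (zq : ZQ K)
    {k : IntermediateField ℂ K} (dim : Algebra.trdeg ℂ k ≤ 2)
    (closed : ∀ e : K, IsAlgebraic k e → e ∈ k) {θ : K} (tor : Tor S.x S.g k θ) {N : ℕ}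
    (Δ : Desc S.x S.g k θ N) : ∃ t : ℕ, 0 < t ∧ ∃ f, f ≠ 0 ∧ Sec S.x S.g t 0 f := by
  have h0 := Δ.ne_zero S.i₀
  obtain ⟨B, φ, hB⟩ := vv_bound S.one S.frac tor
  refine (mu_or S hd hk deg lead hilbert k dim closed h0 fun a => (hB a).1).elim id ?_
  rintro ⟨dim2, a₁, mu⟩
  obtain ⟨a₀, hP⟩ := S.unif hilbert
  simp only [evalEval_lin deg] at hP
  have fd := KBD.secS_fd S.cart S.nef S.i₀
  have hST : ∀ t a : ℕ, finrank ℂ (ST S.x S.g θ t a) = finrank ℂ (SecS S.x S.g t a) := fun t a =>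
    (LinearEquiv.ofSubmodule' (LinearEquiv.ofBijective (LinearMap.mulRight ℂ (θ ^ t))
      ⟨mul_left_injective₀ (pow_ne_zero t h0), fun z => ⟨z / θ ^ t,
        div_mul_cancel₀ z (pow_ne_zero t h0)⟩⟩) _).finrank_eq
  obtain ⟨a₃, w, w0, hw⟩ := Δ.exists_den S.cart S.one (S.frac _)
  have pull : ∀ t s : ℕ, finrank ℂ (SecS Δ.y Δ.h t s) ≤ finrank ℂ (SecS S.x S.g t (s * a₃ + a₀)) :=
    fun t s => by
      have := fd t (s * a₃ + a₀)
      refine LinearMap.finrank_le_finrank_of_injective (f := LinearMap.restrict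
        (LinearMap.mulRight ℂ (θ ^ t) ∘ₗ LinearMap.mulLeft ℂ (w ^ s) ∘ₗ k.val.toLinearMap)
        fun f hf => KBD.secS_mono S.one _ _ _ (Δ.pull S.frac S.norm hw hf)) fun f f' e => ?_
      exact Subtype.ext (Subtype.ext (mul_left_cancel₀ (pow_ne_zero s w0)
        (mul_right_cancel₀ (pow_ne_zero t h0) (congrArg Subtype.val e))))
  obtain ⟨C, H, p₀, s₀, c1, c2, c3, c4, c5, c6⟩ := exists_vc Δ.one Δ.frac Δ.norm Δ.cart Δ.nef dim
    fun s => ⟨|(P.coeff 1).eval ((s * a₃ + a₀ : ℕ) : ℚ)| + |(P.coeff 0).eval ((s * a₃ + a₀ : ℕ) : ℚ)|,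
      fun t => by
        refine (Nat.cast_le.2 (pull t s)).trans ((hP t _ (by omega)).trans_le ?_)
        have h1 := le_abs_self ((P.coeff 1).eval ((s * a₃ + a₀ : ℕ) : ℚ))
        have h2 := le_abs_self ((P.coeff 0).eval ((s * a₃ + a₀ : ℕ) : ℚ))
        have h3 := abs_nonneg ((P.coeff 1).eval ((s * a₃ + a₀ : ℕ) : ℚ))
        have h4 := abs_nonneg ((P.coeff 0).eval ((s * a₃ + a₀ : ℕ) : ℚ))
        nlinarith [Nat.cast_nonneg (α := ℚ) t]⟩
  obtain ⟨A, hA, hΛ⟩ := Δ.exists_lat S.one S.frac S.norm (by rw [dim2]; exact two_ne_zero) C c1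
    fun b w hw => (c2 b w hw).1
  have hV : ∀ a, A.V a = VV S.x S.g k θ a := fun a => by simp only [Lat.V, VV, hA]
  have grow : ∀ a, a₀ ≤ a → ∀ t : ℕ, t * (P.coeff 1).eval (a : ℚ) - -(P.coeff 0).eval (a : ℚ) ≤
      finrank ℂ (A.Γ a (t • C.D)) := fun a ha t => by
    rw [hA, hST, hP t a ha, sub_neg_eq_add]
  have hσ : 0 ≤ C.σ := A.sigma_nonneg (fun a => hV a ▸ (hB a).1) (fun a => hV a ▸ (hB a).2)
    (fun a => (P.coeff 1).eval (a : ℚ)) (a₀ + a₁) (fun a ha => ⟨_, grow a (by omega)⟩)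
    (fun a ha j hj U hU e c h => hV a ▸ mu a (by omega) j hj U (hV _ ▸ hU) e c
      fun t => hA _ t ▸ h t)
    (c4.imp id fun h => ⟨a₃, w, H, w0, c3, h, fun v c hc => by
      obtain ⟨b, hb⟩ := v.2
      have h1 : c / (Δ.y b : k) ∈ v.1.valuationSubring := by
        change v.1 _ ≤ 1
        rw [map_div₀, (c2 b v hb).2, div_le_one₀ exp_pos]
        simpa [c1] using hc
      have h2 := (Reg.of_sec (hw b) v.1.valuationSubring).smul h1
      rwa [mul_comm, show ((Δ.y b : k) : K) * w = (Δ.y b : k) • w from rfl, smul_smul,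
        div_mul_cancel₀ _ (Δ.y b).ne_zero, ← hΛ] at h2⟩)
  obtain ⟨a, ha, hq⟩ : ∃ a : ℕ, a₀ ≤ a ∧ 0 < (P.coeff 1).eval (a : ℚ) := by
    obtain ⟨a, h1, h2⟩ := ((eventually_ge_atTop a₀).and
      ((tendsto_natCast_atTop_atTop (R := ℚ)).eventually (eventually_atTop_not_isRoot _ lead))).exists
    refine ⟨a, h1, lt_of_le_of_ne (not_lt.1 fun h => ?_) (Ne.symm h2)⟩
    refine lt_irrefl _ (slope_pos (c := (P.coeff 0).eval (a : ℚ)) (e := 0) (p := 0) (neg_pos.2 h)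
      le_rfl fun t => ?_)
    linarith [hP t a h1, Nat.cast_nonneg (α := ℚ) (finrank ℂ (SecS S.x S.g t a))]
  have : FiniteDimensional k (A.V a) := hV a ▸ (hB a).1
  obtain ⟨r, Mf, hM⟩ := A.up_flag a
  choose s₁ hs₁ using fun l => c6 (Mf l)
  have pos := slope_pos (e := C.σ + (s₀ + Finset.univ.sup s₁ : ℕ) * dg C.d H) hq
    (Nat.cast_nonneg r) fun t => (grow a ha t).trans (by
      rw [← c5 t _ (Nat.le_add_right _ _), ← Nat.cast_mul, Nat.cast_le]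
      refine (hM t).trans ((Finset.sum_le_card_nsmul _ _ _ fun l _ => hs₁ l _ t
        ((Finset.le_sup (Finset.mem_univ l)).trans (Nat.le_add_left _ s₀))).trans_eq ?_)
      simp)
  obtain ⟨t, ht, f, f0, hf⟩ := surf_section Δ.one Δ.frac Δ.norm Δ.cart dim2 (zq.down k closed) c5 hσ
    (Nat.le_add_right _ _) pos
  refine ⟨t, ht, _, ?_, by simpa using Δ.pull S.frac S.norm hw hf⟩
  exact mul_ne_zero (by simpa using f0) (pow_ne_zero t h0)

theorem core_tors (hd : S.d₀ = n - 1) (hk : S.VK 1) (deg : P.natDegree ≤ 1)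
    (lead : P.coeff 1 ≠ 0)
    (hilbert : ∀ t : ℕ, ∀ᶠ a : ℕ in atTop,
      (finrank ℂ (SecS S.x S.g t a) : ℚ) = P.evalEval (a : ℚ) (t : ℚ))
    (tors : ∃ (k : IntermediateField ℂ K) (N : ℕ) (θ : K), Algebra.trdeg ℂ k ≤ (2 : ℕ) ∧ 0 < N ∧
      ∀ i (O : ValuationSubring K), (∀ c ∈ k, c ∈ O) → (∀ r ∈ chart S.x i, r ∈ O) →
        O.valuation θ = O.valuation ((S.g i : K) ^ N)) (zq : ZQ K) :
    ∃ t : ℕ, 0 < t ∧ ∃ f, f ≠ 0 ∧ Sec S.x S.g t 0 f := by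
  obtain ⟨k₀, N, θ, k1, k2, k3⟩ := tors
  obtain ⟨k, l1, l2, l3⟩ := exists_closed k₀
  have tor : Tor S.x (fun j => S.g j ^ N) k θ := fun j V h1 h2 =>
    (k3 j V (fun c hc => h1 c (l1 hc)) h2).trans (by rw [Units.val_pow_eq_pow_val])
  obtain ⟨δ, N', hδ, ⟨Δ⟩⟩ := exists_desc S.one S.frac (cart_pow S.cart N) (nef_pow S.nef N) l3 tor
  obtain ⟨S', s1, s2, s3, s4⟩ := exists_pow S (Nat.mul_pos k2 hδ)
  have e : S'.g = fun j => (S.g j ^ N) ^ δ := by simp only [s2, pow_mul]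
  have hN : ((N * δ : ℕ) : ℚ) ≠ 0 := Nat.cast_ne_zero.2 (Nat.mul_pos k2 hδ).ne'
  obtain ⟨t, ht, f, f0, hf⟩ := core_desc S' (P := P.comp (C (C ((N * δ : ℕ) : ℚ)) * X)) (s3 ▸ hd)
    (s4 1 hk) (natDegree_comp_le.trans (by
      rw [natDegree_C_mul_X _ (C_ne_zero.2 hN), mul_one]
      exact deg))
    (by
      rw [comp_C_mul_X_coeff]
      exact mul_ne_zero lead (pow_ne_zero _ (C_ne_zero.2 hN)))
    (fun t => by
      filter_upwards [hilbert (N * δ * t)] with a ha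
      rw [s1, s2, secS_pow, ha]
      simp [evalEval, eval_comp])
    zq (l2 ▸ k1) l3 (θ := θ ^ δ) (fun j V h1 h2 => by
      rw [e, Units.val_pow_eq_pow_val, map_pow, map_pow, tor j V h1 (s1 ▸ h2)])
    (s1 ▸ e ▸ Δ)
  rw [s1, s2, sec_pow_iff] at hf
  exact ⟨_, Nat.mul_pos (Nat.mul_pos k2 hδ) ht, f, f0, hf⟩

theorem core (hd : S.d₀ = n - 1) (hk : S.VK 1) (deg : P.natDegree ≤ 1)
    (order : ¬ Polynomial.X ^ 2 ∣ P.coeff 1)
    (hilbert : ∀ t : ℕ, ∀ᶠ a : ℕ in atTop,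
      (finrank ℂ (SecS S.x S.g t a) : ℚ) = P.evalEval (a : ℚ) (t : ℚ)) (zq : ZQ K) :
    ∃ t : ℕ, 0 < t ∧ ∃ f, f ≠ 0 ∧ Sec S.x S.g t 0 f :=
  core_tors S hd hk deg (fun h => order (h ▸ dvd_zero _)) hilbert (S.torsionk (ν := 1) (j := 1) hd
    (fun i p hp h => hk i p hp (lt_of_le_of_lt (by norm_num) h)) deg order hilbert) zq

end Pool.Agent.Lib.MP_bc213e_ag.SB
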