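import Pool.Agent.Lib.MP_bc213e_ag.SB.E.Core
import Pool.Agent.Lib.MP_bc213e_ag.SB.M.Main
import Pool.Agent.Lib.MP_bc213e_ag.TE.Base

/-! Nonvanishing over a base of dimension at most two, for divisors. -/

namespace Pool.Agent.Lib.MP_bc213e_ag.OW

open Pool.Agent.Lib.MP_bc213e_ag.Hyp Pool.Agent.Lib.MP_bc213e_ag.KBB WithZero Filter

theorem nu_tens {K K' : Type} [Field K] [Algebra ℂ K] [Field K'] [Algebra ℂ K'] [Algebra K K']
    [IsScalarTower ℂ K K'] {N n m ν j k p : ℕ} (hm : 0 < m) (hν : 0 < ν) (hj : ν + j ≤ 2)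
    (x : Fin (N + 1) → Kˣ)
    (normal : ∀ i, IsFractionRing (chart x i) K ∧ IsIntegrallyClosed (chart x i))
    (τ : Fin n → K) (hτ : IsTranscendenceBasis ℂ τ) (D : Fin n → Derivation ℂ K K)
    (hD : ∀ a b, D a (τ b) = if a = b then 1 else 0)
    (KX : Prm x →₀ ℤ) (canonical : IsCanonical D KX) (Δ : Prm x →₀ ℚ) (effective : 0 ≤ Δ)
    (L : Prm x →₀ ℤ) (hL : ∀ w, (L w : ℚ) = m * (KX w + Δ w))
    (cartier : IsCartier L) (nef : IsNef L)
    (klt : ∀ (O : Subalgebra ℂ K) (F : Type) [Field F] [Algebra ℂ F] (ρ : O →ₐ[ℂ] F),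
      IsPoint x O → Function.Surjective ρ →
        ((ν : Cardinal) < Algebra.trdeg ℂ F → KltAt D m L O) ∧
          (0 < p → ((ν + j : ℕ) : Cardinal) < Algebra.trdeg ℂ F → SmoothAt n O))
    (H : Prm x →₀ ℤ)
    (hyperplane : ∀ i (w : Prm x), PrimeDiv (chart x i) w.1 → H w = ord w.1 ((x 0 : K) / x i))
    (ξ : Fin k × Fin n → K') (hξ : AlgebraicIndependent K ξ) (type : Fin p → Fin k)
    (P : Polynomial (Polynomial ℚ))
    (euler : ∀ t a : ℕ, (chi (SectT D ξ type (t • L + a • H)) : ℚ) =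
      (P.eval (Polynomial.C (t : ℚ))).eval (a : ℚ))
    (deg : P.natDegree ≤ ν) (order : ¬ Polynomial.X ^ (j + 1) ∣ P.coeff ν)
    (regular : ∀ (N' : ℕ) (y : Fin (N' + 1) → Kˣ),
      (∀ i, IsFractionRing (chart y i) K ∧ IsIntegrallyClosed (chart y i)) →
        hC (Sect (0 : Prm y →₀ ℤ)) 1 = 0) :
    ∃ t : ℕ, 0 < t ∧ ∃ f : Kˣ, ∀ w : Prm x, 0 ≤ ord w.1 (f : K) + t * L w := by
  obtain ⟨κ, _, ⟨E⟩⟩ := exists_emb normal cartier
  obtain ⟨S, Q, s1, s2, s3, s4, q1, q2, q3, F, f1, f2⟩ :=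
    E.base hm normal hτ hD canonical effective hL nef klt hyperplane hξ euler deg order
  rcases Nat.eq_zero_or_pos j with rfl | h0
  · obtain ⟨a₀, hP⟩ := S.unif q3
    obtain ⟨a, c, -, hc0, big⟩ := DD.num_big Q q1 q2
      (fun t a => Module.finrank ℂ (SecS S.x S.g t a)) a₀ hP
    have h2 := DS.endgame S.frac S.norm S.one S.cart S.nef
      ((TCI.trdeg_eq_card S.τ S.hτ).trans (by rw [Fintype.card_fin])) S.u S.tr S.top F f1 a (f2 a)
      hc0 big
    rw [s1, s2] at h2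
    have h9 : ∀ t : ℕ, Module.finrank ℂ (Tw (t • L) (E.k * 0)) =
        Module.finrank ℂ (Sect (t • L) ∅) := fun t => by rw [mul_zero, tw_zero]
    exact concl_of_growth (by simpa only [E.finrank_eq, h9] using h2)
  obtain rfl : ν = 1 := by omega
  obtain rfl : j = 1 := by omega
  have := (normal 0).1
  have : Algebra.EssFiniteType ℂ K := (Algebra.essFiniteType_iff_exists_subalgebra ℂ K).2
    ⟨chart x 0, nonZeroDivisors _, (Subalgebra.fg_iff_finiteType _).1 (TE.chart_fg x 0), this⟩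
  obtain ⟨t, ht, f, h1, h2⟩ := SB.core_tors S s3 s4 q1 q2 q3
    (DS.torsion S.cart S.nef S.i₀ S.u S.tr S.top F f1 f2) (SB.zq_of_models regular)
  rw [s1, s2, E.sec, pow_zero, mul_one, mul_zero, tw_zero] at h2
  refine ⟨t, ht, Units.mk0 f h1, fun w => ?_⟩
  have a := h2 w fun _ hi => absurd hi (by simp)
  rw [Finsupp.smul_apply, nsmul_eq_mul, ← neg_neg (t * L w), ← le_ord_iff w.1 h1] at a
  rw [Units.val_mk0]
  linarith

end Pool.Agent.Lib.MP_bc213e_ag.OW
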